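import Pool.Agent.H17.SD.Targets

/-!
# MP_70ba79_ag, THEOREM S: row NRM, the projection
-/

set_option autoImplicit false

open MvPolynomial SC Pool.Agent.H27.LV
open Pool.Agent.H92.SF Pool.Agent.H3.SF Pool.Agent.H17.SD

namespace Pool.Agent.H99.SFG

open scoped IntermediateField.algebraAdjoinAdjoin

theorem nrm_hrel {k F σ τ : Type} [Field k] [Field F] [Algebra k F] (X : σ → F) (e : τ ≃ σ)
    (h : HRel k X) : HRel k (X ∘ e) := by
  intro f hf d
  have h1 : aeval X (rename e f) = 0 := by
    rw [aeval_rename]
    exact hf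
  have h2 := h _ h1 d
  rwa [← rename_homogeneousComponent, aeval_rename] at h2

theorem nrm_top {k F σ : Type} [Field k] [Field F] [Algebra k F] (X : σ → F)
    (L : IntermediateField k F) (h : IntermediateField.adjoin k (Set.range X) = ⊤) :
    IntermediateField.adjoin L (Set.range X) = ⊤ := by
  have h1 : IntermediateField.adjoin k (Set.range X) ≤
      (IntermediateField.adjoin L (Set.range X)).restrictScalars k := by
    rw [IntermediateField.adjoin_le_iff]
    exact IntermediateField.subset_adjoin L (Set.range X)
  rw [h] at h1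
  rw [eq_top_iff]
  intro x _
  exact h1 IntermediateField.mem_top

theorem pf_NRM (h1 : T_ITA) (h2 : T_NN) (h3 : T_PRE) : T_NRM := by
  intro k F σ _ _ _ _ _ X hX
  let e : σ ≃ Fin (Fintype.card σ) := Fintype.equivFin σ
  have hr := nrm_hrel X e.symm hX.hmg
  obtain ⟨r, u, hu, hul, hui⟩ := h2 k F (Fintype.card σ) (X ∘ e.symm) hr
  have hrange : Set.range (X ∘ e.symm) = Set.range X := e.symm.surjective.range_comp X
  rw [hrange] at hul
  have hXi : ∀ s, Itg k u (X s) := by
    intro s
    have := hui (e s)
    simpa using this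
  have hint : ∀ s, IsIntegral (kF k u) (X s) := by
    intro s
    have h4 : IsIntegral (PA k u) (X s) := (h1 k F (Fin r) u (X s)).mp (hXi s)
    exact h4.tower_top
  have htop := nrm_top X (kF k u) hX.top
  have hfd : FiniteDimensional (kF k u) F := by
    have h4 : FiniteDimensional (kF k u) (IntermediateField.adjoin (kF k u) (Set.range X)) := by
      apply IntermediateField.finiteDimensional_adjoin
      rintro _ ⟨s, rfl⟩
      exact hint s
    rw [htop] at h4
    exact LinearEquiv.finiteDimensional (IntermediateField.topEquiv (F := kF k u) (E := F)).toLinearEquiv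
  have halg : Algebra.IsAlgebraic (Algebra.adjoin k (Set.range u)) F :=
    (IsFractionRing.comap_isAlgebraic_iff (A := Algebra.adjoin k (Set.range u))
      (K := kF k u) (C := F)).mpr inferInstance
  have htb : IsTranscendenceBasis k u := hu.isTranscendenceBasis_iff_isAlgebraic.mpr halg
  have hcard := htb.cardinalMk_eq_trdeg
  rw [hX.trd, Cardinal.mk_fin] at hcard
  have hr3 : r = 3 := by exact_mod_cast hcard
  subst hr3
  obtain ⟨θ, hθ, hθt⟩ := h3 k F σ (kF k u) hfd X htop
  exact ⟨u, θ, hu, hul, hθ, hXi, hfd, hθt⟩

end Pool.Agent.H99.SFG
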